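import Mathlib
import Pool.Agent.W192.CY.Stneb
import Pool.Agent.W378.CY.AFE0

/-!
# CYN-TWIST : the theta relation for the twists of a newform with nebentypus by a primitive character
-/

set_option autoImplicit false

open Complex Filter Topology Set UpperHalfPlane MatrixGroups CongruenceSubgroup ZMod

namespace Pool.Agent.W597.CYN

open Pool.Agent.W440.TW (inv_primitive gauss_ne_zero pt pt_coe HasSum.congr_fun')
open Pool.Agent.W192.CY

/-- the sum over `n` for a fixed residue `u` -/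
theorem hasSum_pt {N : ℕ} [NeZero N] {k : ℤ}
    (f : CuspForm (Gamma1 N : Subgroup (GL (Fin 2) ℝ)) k) {q : ℕ} [NeZero q] (u : ℤ)
    (y : ℝ) (hy : 0 < y / q) :
    HasSum (fun n : ℕ => cf f n *
      (stdAddChar ((u : ZMod q) * (n : ZMod q)) * (Real.exp (-(2 * Real.pi * n * (y / q))) : ℂ)))
      (f (pt ((u : ℝ) / q) (y / q) hy)) := by
  have h1 : (1 : ℝ) ∈ (Gamma1 N : Subgroup (GL (Fin 2) ℝ)).strictPeriods := by
    rw [strictPeriods_Gamma1]
    exact AddSubgroup.mem_zmultiples 1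
  have h2 := ModularForm.hasSum_qExpansion (f := f) one_pos h1 (pt ((u : ℝ) / q) (y / q) hy)
  have hq : (q : ℂ) ≠ 0 := Nat.cast_ne_zero.2 (NeZero.ne q)
  unfold cf
  convert h2 using 2 with n
  congr 1
  have h3 : ((u : ZMod q) * (n : ZMod q)) = ((u * n : ℤ) : ZMod q) := by push_cast; rfl
  rw [h3, stdAddChar_coe, Function.Periodic.qParam, pt_coe, ← Complex.exp_nat_mul,
    Complex.ofReal_exp, ← Complex.exp_add]
  congr 1
  push_cast
  field_simp
  ring_nf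
  simp only [Complex.I_sq]
  ring

/-- the Gauss sum trick -/
theorem hasSum_twist {N : ℕ} [NeZero N] {k : ℤ}
    (f : CuspForm (Gamma1 N : Subgroup (GL (Fin 2) ℝ)) k) {q : ℕ} [NeZero q]
    (χ : DirichletCharacter ℂ q) (hχ : χ.IsPrimitive)
    (y : ℝ) (hy : 0 < y / q) :
    HasSum (fun n : ℕ => gaussSum χ (stdAddChar (N := q)) * (χ⁻¹ (n : ZMod q) *
      cf f n * (Real.exp (-(2 * Real.pi * n * (y / q))) : ℂ)))
      (∑ u : (ZMod q)ˣ, χ (u : ZMod q) *
        f (pt ((((u : ZMod q).val : ℤ) : ℝ) / q) (y / q) hy)) := by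
  have h1 : HasSum (fun n : ℕ => ∑ u : (ZMod q)ˣ, χ (u : ZMod q) * (cf f n *
      (stdAddChar (((((u : ZMod q).val : ℤ)) : ZMod q) * (n : ZMod q)) *
        (Real.exp (-(2 * Real.pi * n * (y / q))) : ℂ))))
      (∑ u : (ZMod q)ˣ, χ (u : ZMod q) *
        f (pt ((((u : ZMod q).val : ℤ) : ℝ) / q) (y / q) hy)) := by
    apply hasSum_sum
    intro u _
    exact (hasSum_pt f ((u : ZMod q).val : ℤ) y hy).mul_left _
  convert h1 using 2 with n
  have h2 := gaussSum_mulShift_of_isPrimitive (stdAddChar (N := q)) hχ (n : ZMod q)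
  have h3 : gaussSum χ (stdAddChar.mulShift (n : ZMod q)) =
      ∑ u : (ZMod q)ˣ, χ (u : ZMod q) * stdAddChar ((n : ZMod q) * (u : ZMod q)) := by
    unfold gaussSum
    simp only [AddChar.mulShift_apply]
    symm
    apply Finset.sum_of_injOn (fun u : (ZMod q)ˣ => (u : ZMod q))
    · intro a _ b _ hab
      exact Units.ext hab
    · intro a _
      simp
    · intro a _ ha
      rw [MulChar.map_nonunit _ (fun hu => ha ⟨hu.unit, by simp, by simp⟩), zero_mul]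
    · intro a _
      rfl
  rw [h3] at h2
  have h4 : gaussSum χ (stdAddChar (N := q)) * (χ⁻¹ (n : ZMod q) *
      cf f n * (Real.exp (-(2 * Real.pi * n * (y / q))) : ℂ)) =
      (χ⁻¹ (n : ZMod q) * gaussSum χ (stdAddChar (N := q))) *
      (cf f n * (Real.exp (-(2 * Real.pi * n * (y / q))) : ℂ)) := by ring
  rw [h4, ← h2, Finset.sum_mul]
  apply Finset.sum_congr rfl
  intro u _
  have h5 : (((((u : ZMod q).val : ℤ)) : ZMod q)) = (u : ZMod q) := by
    rw [Int.cast_natCast, ZMod.natCast_zmod_val]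
  rw [h5, mul_comm (n : ZMod q)]
  ring

/-- modularity and Fricke -/
theorem f_pt_flip {m N : ℕ} [NeZero N] (η : DirichletCharacter ℂ N)
    (f : CuspForm (Gamma1 N : Subgroup (GL (Fin 2) ℝ)) (2 * m : ℤ)) (w : ℂ)
    (hf : NNewf m N η f w)
    {q : ℕ} [NeZero q] (u v d : ℤ) (hd : q * d + N * u * v = 1) (t : ℝ) (ht : 0 < t)
    (h1 : 0 < (1 / (Real.sqrt N * t)) / q) (h2 : 0 < (t / Real.sqrt N) / q) :
    f (pt ((u : ℝ) / q) ((1 / (Real.sqrt N * t)) / q) h1) =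
      w * η (q : ZMod N) * (t : ℂ) ^ (2 * m) *
        (starRingEnd ℂ) (f (pt ((v : ℝ) / q) ((t / Real.sqrt N) / q) h2)) := by
  have hq : (q : ℂ) ≠ 0 := Nat.cast_ne_zero.2 (NeZero.ne q)
  have hN : (0 : ℝ) < N := Nat.cast_pos.2 (Nat.pos_of_ne_zero (NeZero.ne N))
  have hsN : 0 < Real.sqrt N := Real.sqrt_pos.2 hN
  let γ : SL(2, ℤ) := ⟨!![(q : ℤ), -u; (N : ℤ) * v, d], by
    rw [Matrix.det_fin_two_of]; linarith⟩
  have hγ : γ ∈ Gamma0 N := by
    rw [Gamma0_mem]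
    simp [γ]
  set z := pt ((u : ℝ) / q) ((1 / (Real.sqrt N * t)) / q) h1 with hz
  set z' := pt ((((-v : ℤ)) : ℝ) / q) ((t / Real.sqrt N) / q) h2 with hz'
  set zc := pt ((v : ℝ) / q) ((t / Real.sqrt N) / q) h2 with hzcdef
  have e1 := hf.neb γ hγ z
  have htc : (t : ℂ) ≠ 0 := Complex.ofReal_ne_zero.2 ht.ne'
  have hsc : ((Real.sqrt N : ℝ) : ℂ) ≠ 0 := Complex.ofReal_ne_zero.2 hsN.ne'
  have hss : ((Real.sqrt N : ℝ) : ℂ) * ((Real.sqrt N : ℝ) : ℂ) = (N : ℂ) := by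
    rw [← Complex.ofReal_mul, Real.mul_self_sqrt hN.le]; simp
  have hdc : (q : ℂ) * (d : ℂ) + (N : ℂ) * (u : ℂ) * (v : ℂ) = 1 := by exact_mod_cast hd
  have hzc : (z : ℂ) = ((u : ℂ) + (1 / (((Real.sqrt N : ℝ) : ℂ) * (t : ℂ))) * Complex.I) / q := by
    rw [hz, pt_coe]
    push_cast
    ring
  have hzc' : (z' : ℂ) = (-(v : ℂ) + ((t : ℂ) / ((Real.sqrt N : ℝ) : ℂ)) * Complex.I) / q := by
    rw [hz', pt_coe]
    push_cast
    ring
  have hconj : (zc : ℂ) = -(starRingEnd ℂ) (z' : ℂ) := by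
    rw [hz', hzcdef, pt_coe, pt_coe, map_add, map_mul, Complex.conj_ofReal, Complex.conj_ofReal,
      Complex.conj_I]
    push_cast
    ring
  have hD : denom (γ : GL (Fin 2) ℝ) z = (N : ℂ) * v * z + d := by
    rw [ModularGroup.denom_apply]
    simp [γ]
  have hnum : num (γ : GL (Fin 2) ℝ) z = (q : ℂ) * z - u := by
    have g0 : ((Int.castRingHom ℝ) ((γ : Matrix (Fin 2) (Fin 2) ℤ) 0 0)) = (q : ℝ) := by simp [γ]
    have g1 : ((Int.castRingHom ℝ) ((γ : Matrix (Fin 2) (Fin 2) ℤ) 0 1)) = -(u : ℝ) := by simp [γ]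
    show (((Int.castRingHom ℝ) ((γ : Matrix (Fin 2) (Fin 2) ℤ) 0 0) : ℝ) : ℂ) * (z : ℂ) +
      (((Int.castRingHom ℝ) ((γ : Matrix (Fin 2) (Fin 2) ℤ) 0 1) : ℝ) : ℂ) = _
    rw [g0, g1]
    push_cast
    ring
  have hD0 : denom (γ : GL (Fin 2) ℝ) z ≠ 0 := denom_ne_zero _ _
  have hact : ((γ • z : ℍ) : ℂ) = num (γ : GL (Fin 2) ℝ) z / denom (γ : GL (Fin 2) ℝ) z := by
    rw [ModularGroup.sl_moeb]
    exact coe_smul_of_det_pos (by simp) z
  have hDt : ((Real.sqrt N : ℝ) : ℂ) * (z' : ℂ) / Complex.I =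
      (t : ℂ) * denom (γ : GL (Fin 2) ℝ) z := by
    rw [hD, hzc, hzc', div_eq_iff Complex.I_ne_zero]
    rw [← hss] at hdc ⊢
    field_simp
    have hI : Complex.I ^ 2 = -1 := Complex.I_sq
    linear_combination (-(t : ℂ) * Complex.I) * hdc - (((Real.sqrt N : ℝ) : ℂ) * v) * hI
  have hprod : ((γ • z : ℍ) : ℂ) * ((N : ℂ) * (z' : ℂ)) = -1 := by
    rw [hact, div_mul_eq_mul_div, div_eq_iff hD0]
    have h3 : (z' : ℂ) = Complex.I * ((t : ℂ) * denom (γ : GL (Fin 2) ℝ) z) /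
        ((Real.sqrt N : ℝ) : ℂ) := by
      rw [← hDt]
      field_simp
    rw [h3, hnum]
    have h4 : (q : ℂ) * z - u = (1 / (((Real.sqrt N : ℝ) : ℂ) * (t : ℂ))) * Complex.I := by
      rw [hzc]
      field_simp
      ring
    rw [h4, ← hss]
    field_simp
    rw [Complex.I_sq]
  have e2 := hf.fricke z' (γ • z) zc hprod hconj
  have e3 : (((γ 1 0 : ℤ) : ℂ) * (z : ℂ) + ((γ 1 1 : ℤ) : ℂ)) = denom (γ : GL (Fin 2) ℝ) z := by
    rw [hD]
    simp [γ]
  have e4 : (γ 1 1 : ℤ) = d := by simp [γ]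
  rw [e3, e4, e2] at e1
  -- the power
  have hsq : -((N : ℂ) * (z' : ℂ) ^ 2) = ((t : ℂ) * denom (γ : GL (Fin 2) ℝ) z) ^ 2 := by
    rw [← hDt, div_pow, Complex.I_sq, mul_pow, pow_two ((Real.sqrt N : ℝ) : ℂ), hss]
    ring
  have hpow : (-1 : ℂ) ^ m * (N : ℂ) ^ m * (z' : ℂ) ^ (2 * m) =
      (t : ℂ) ^ (2 * m) * denom (γ : GL (Fin 2) ℝ) z ^ (2 * m) := by
    rw [← mul_pow, ← mul_pow, pow_mul (z' : ℂ), ← mul_pow, pow_mul ((t : ℂ) * _), ← hsq]
    congr 1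
    ring
  have hη : η (q : ZMod N) * η (d : ZMod N) = 1 := by
    rw [← map_mul]
    have h6 : (q : ZMod N) * (d : ZMod N) = 1 := by
      have h7 := congrArg (Int.cast : ℤ → ZMod N) hd
      push_cast at h7
      rw [ZMod.natCast_self, zero_mul, zero_mul, add_zero] at h7
      exact h7
    rw [h6, map_one]
  have h5 : denom (γ : GL (Fin 2) ℝ) z ^ (2 * m) ≠ 0 := pow_ne_zero _ hD0
  apply mul_left_cancel₀ h5
  calc denom (γ : GL (Fin 2) ℝ) z ^ (2 * m) * f z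
      = (η (q : ZMod N) * η (d : ZMod N)) * (denom (γ : GL (Fin 2) ℝ) z ^ (2 * m) * f z) := by
        rw [hη, one_mul]
    _ = η (q : ZMod N) * (η (d : ZMod N) * denom (γ : GL (Fin 2) ℝ) z ^ (2 * m) * f z) := by ring
    _ = η (q : ZMod N) * ((-1 : ℂ) ^ m * w * (N : ℂ) ^ m * (z' : ℂ) ^ (2 * m) *
          (starRingEnd ℂ) (f zc)) := by rw [← e1]
    _ = η (q : ZMod N) * w * ((-1 : ℂ) ^ m * (N : ℂ) ^ m * (z' : ℂ) ^ (2 * m)) *
          (starRingEnd ℂ) (f zc) := by ring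
    _ = _ := by rw [hpow]; ring

/-- conjugate of the Gauss sum -/
theorem gauss_conj' {q : ℕ} [NeZero q] (χ : DirichletCharacter ℂ q) :
    (starRingEnd ℂ) (gaussSum χ⁻¹ (stdAddChar (N := q))) =
      χ (-1) * gaussSum χ (stdAddChar (N := q)) := by
  have h1 : (starRingEnd ℂ) (gaussSum χ⁻¹ (stdAddChar (N := q))) =
      ∑ u : ZMod q, χ u * stdAddChar (-u) := by
    unfold gaussSum
    rw [map_sum]
    apply Finset.sum_congr rfl
    intro u _
    rw [map_mul]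
    congr 1
    · have := MulChar.star_apply' χ⁻¹ u
      rw [inv_inv] at this
      exact this
    · rw [AddChar.map_neg_eq_conj]
  rw [h1]
  unfold gaussSum
  rw [Finset.mul_sum, ← Equiv.sum_comp (Equiv.neg (ZMod q))]
  apply Finset.sum_congr rfl
  intro u _
  simp only [Equiv.neg_apply, neg_neg]
  rw [← mul_assoc, ← map_mul, neg_one_mul]

/-- the theta relation for the twist by a primitive character -/
theorem n_twist : N_TWIST := by
  intro m hm N _ η f w hf q _ χ hco hχ t ht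
  have hq : (0 : ℝ) < q := Nat.cast_pos.2 (Nat.pos_of_ne_zero (NeZero.ne q))
  have hqc : (q : ℂ) ≠ 0 := Nat.cast_ne_zero.2 (NeZero.ne q)
  have hN : (0 : ℝ) < N := Nat.cast_pos.2 (Nat.pos_of_ne_zero (NeZero.ne N))
  have hsN : 0 < Real.sqrt N := Real.sqrt_pos.2 hN
  have hχi := inv_primitive χ hχ
  have hgc := gauss_conj' χ
  have hgp := Pool.Agent.W378.CY.gauss_prod q χ hχ
  set g := gaussSum χ (stdAddChar (N := q)) with hg
  set g' := gaussSum χ⁻¹ (stdAddChar (N := q)) with hg'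
  have hg0 : g ≠ 0 := gauss_ne_zero χ hχ
  have hg0' : g' ≠ 0 := gauss_ne_zero χ⁻¹ hχi
  let n0 : (ZMod q)ˣ := ZMod.unitOfCoprime N hco.symm
  have hn0 : (n0 : ZMod q) = (N : ZMod q) := by simp [n0]
  have h1 : 0 < (1 / (Real.sqrt N * t)) / q := by positivity
  have h2 : 0 < (t / Real.sqrt N) / q := by positivity
  have s1 := hasSum_twist f χ⁻¹ hχi (1 / (Real.sqrt N * t)) h1
  have s2 := hasSum_twist f χ⁻¹ hχi (t / Real.sqrt N) h2
  rw [← hg'] at s1 s2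
  have key : (∑ u : (ZMod q)ˣ, χ⁻¹ (u : ZMod q) *
        f (pt ((((u : ZMod q).val : ℤ) : ℝ) / q) ((1 / (Real.sqrt N * t)) / q) h1)) =
      w * η (q : ZMod N) * (t : ℂ) ^ (2 * m) * χ (N : ZMod q) *
      (starRingEnd ℂ) (∑ u : (ZMod q)ˣ, χ⁻¹ (u : ZMod q) *
        f (pt ((((u : ZMod q).val : ℤ) : ℝ) / q) ((t / Real.sqrt N) / q) h2)) := by
    rw [map_sum, ← Equiv.sum_comp ((Equiv.mulLeft n0).trans (Equiv.inv (ZMod q)ˣ))
      (fun u : (ZMod q)ˣ => (starRingEnd ℂ) (χ⁻¹ (u : ZMod q) *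
        f (pt ((((u : ZMod q).val : ℤ) : ℝ) / q) ((t / Real.sqrt N) / q) h2))), Finset.mul_sum]
    apply Finset.sum_congr rfl
    intro u _
    simp only [Equiv.trans_apply, Equiv.coe_mulLeft, Equiv.inv_apply]
    set v : (ZMod q)ˣ := (n0 * u)⁻¹ with hv
    have hdvd : (q : ℤ) ∣ (1 - N * ((u : ZMod q).val : ℤ) * ((v : ZMod q).val : ℤ)) := by
      rw [← ZMod.intCast_zmod_eq_zero_iff_dvd]
      push_cast
      rw [ZMod.natCast_zmod_val, ZMod.natCast_zmod_val, ← hn0, ← Units.val_mul, ← Units.val_mul]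
      have h4 : n0 * u * v = 1 := by
        rw [hv, mul_inv_cancel]
      rw [h4]
      simp
    obtain ⟨d, hd⟩ := hdvd
    rw [f_pt_flip η f w hf ((u : ZMod q).val : ℤ) ((v : ZMod q).val : ℤ) d (by linarith) t ht h1 h2]
    have h5 : χ⁻¹ (u : ZMod q) = χ (N : ZMod q) * χ (v : ZMod q) := by
      rw [← hn0, ← map_mul, ← Units.val_mul, MulChar.inv_apply_eq_inv']
      have h6 : n0 * v = u⁻¹ := by
        rw [hv, mul_inv_rev]
        rw [mul_comm u⁻¹, mul_inv_cancel_left]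
      rw [h6]
      apply inv_eq_of_mul_eq_one_left
      rw [← map_mul, ← Units.val_mul, inv_mul_cancel, Units.val_one, map_one]
    have h7 : (starRingEnd ℂ) (χ⁻¹ (v : ZMod q)) = χ (v : ZMod q) := by
      have := MulChar.star_apply' χ⁻¹ (v : ZMod q)
      rw [inv_inv] at this
      exact this
    rw [map_mul, h7, h5]
    ring
  rw [key] at s1
  set S2 := (∑ u : (ZMod q)ˣ, χ⁻¹ (u : ZMod q) *
        f (pt ((((u : ZMod q).val : ℤ) : ℝ) / q) ((t / Real.sqrt N) / q) h2)) with hS2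
  have r1 : HasSum (fun n : ℕ => χ (n : ZMod q) * cf f n *
      (Real.exp (-(2 * Real.pi * n / (Real.sqrt N * q)) / t) : ℂ))
      (g'⁻¹ * (w * η (q : ZMod N) * (t : ℂ) ^ (2 * m) * χ (N : ZMod q) *
        (starRingEnd ℂ) S2)) := by
    have := s1.mul_left g'⁻¹
    refine HasSum.congr_fun' this (fun n => ?_)
    rw [inv_mul_cancel_left₀ hg0', inv_inv]
    congr 4
    field_simp
  have r2 : HasSum (fun n : ℕ => (starRingEnd ℂ) (χ (n : ZMod q) * cf f n) *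
      (Real.exp (-(2 * Real.pi * n / (Real.sqrt N * q)) * t) : ℂ))
      ((starRingEnd ℂ) (g'⁻¹ * S2)) := by
    have h8 := s2.mul_left g'⁻¹
    have h9 : HasSum (fun n : ℕ => (starRingEnd ℂ) (g'⁻¹ * (g' * ((χ⁻¹)⁻¹ (n : ZMod q) *
      cf f n * (Real.exp (-(2 * Real.pi * n * ((t / Real.sqrt N) / q))) : ℂ)))))
      ((starRingEnd ℂ) (g'⁻¹ * S2)) := by
      rw [Complex.hasSum_conj']
      simpa using h8
    refine HasSum.congr_fun' h9 (fun n => ?_)
    rw [inv_mul_cancel_left₀ hg0', inv_inv, map_mul, Complex.conj_ofReal]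
    congr 4
    field_simp
  rw [r1.tsum_eq, r2.tsum_eq, map_mul, map_inv₀, hgc]
  have hχ1 : χ (-1 : ZMod q) * χ⁻¹ (-1 : ZMod q) = 1 := by
    have := congrArg (fun ψ : DirichletCharacter ℂ q => ψ (-1 : ZMod q)) (mul_inv_cancel χ)
    simp only [MulChar.mul_apply] at this
    rw [this]
    have h4 := MulChar.one_apply_coe (R := ZMod q) (R' := ℂ) (-1 : (ZMod q)ˣ)
    simpa using h4
  have hχ0 : χ (-1 : ZMod q) ≠ 0 := left_ne_zero_of_mul_eq_one hχ1
  have hfin : g'⁻¹ = g ^ 2 / q * (χ (-1 : ZMod q) * g)⁻¹ := by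
    rw [← hgp]
    have hχ0' : χ⁻¹ (-1 : ZMod q) ≠ 0 := right_ne_zero_of_mul_eq_one hχ1
    field_simp
    rw [mul_comm]
    exact hχ1
  rw [hfin]
  ring

end Pool.Agent.W597.CYN
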